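import Pool.Agent.Lib.MP_c7af3c_ag.EDGE.H65.NoFactor

/-!
# MP_c7af3c_ag, project T2C: the count for a common factor on a parametrised variety (helper78)

`rs ψ P` is the substitution `X_j ↦ ∑ i, P i j * ψ i`, `ψ i` polynomials with constant coefficients.
* `count_gen`: the dimension count for a common factor `h` of the `rs ψ P (F m)`.
* `sym_der`: a derivation which maps the span of the `ψ i` to itself up to a factor gives a
  relation between the columns.
-/

set_option autoImplicit false

namespace Pool.Agent.T2C.H78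

open MvPolynomial Pool.Agent.Gen Pool.Agent.Sharp.H75
open Pool.Agent.Edge.H65 (dco_F)

section sub

variable {L : Type} [Field L] {n q : ℕ} {σ : Type} (ψ : Fin q → MvPolynomial σ L)
  (P : Fin q → Fin (n + 1) → L)

/-- the substitution `X_j ↦ ∑ i, P i j * ψ i` -/
noncomputable def rs : MvPolynomial (Fin (n + 1)) L →ₐ[L] MvPolynomial σ L :=
  aeval fun j => ∑ i, C (P i j) * ψ i

theorem rs_X (j : Fin (n + 1)) : rs ψ P (X j) = ∑ i, C (P i j) * ψ i := by
  unfold rs
  rw [aeval_X]

theorem rs_C (a : L) : rs ψ P (C a) = C a := by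
  unfold rs
  rw [aeval_C]
  rfl

theorem dco_rs (δ : Derivation ℤ L L) (hψ : ∀ i, dco δ (ψ i) = 0)
    (F : MvPolynomial (Fin (n + 1)) L) :
    dco δ (rs ψ P F) = rs ψ P (dco δ F) +
      ∑ p, rs ψ P (pderiv p F) * ∑ i, C (δ (P i p)) * ψ i := by
  classical
  induction F using MvPolynomial.induction_on with
  | C a =>
    rw [rs_C, dco_C, dco_C, rs_C]
    simp
  | add F G hF hG =>
    rw [map_add, dco_add, hF, hG, dco_add, map_add]
    simp only [map_add, add_mul, Finset.sum_add_distrib]
    ring
  | mul_X F j hF =>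
    rw [map_mul, dco_mul, hF, dco_mul, dco_X, mul_zero, add_zero, map_mul]
    have h1 : dco δ (rs ψ P (X j)) = ∑ i, C (δ (P i j)) * ψ i := by
      rw [rs_X, dco_sum]
      refine Finset.sum_congr rfl fun i _ => ?_
      rw [dco_mul, dco_C, hψ, mul_zero, add_zero]
    have h2 : ∀ p, rs ψ P (pderiv p (F * X j)) * ∑ i, C (δ (P i p)) * ψ i =
        rs ψ P (pderiv p F) * (∑ i, C (δ (P i p)) * ψ i) * rs ψ P (X j) +
          if p = j then rs ψ P F * ∑ i, C (δ (P i p)) * ψ i else 0 := by
      intro p
      rw [Derivation.leibniz]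
      simp only [smul_eq_mul]
      rw [map_add, map_mul, map_mul]
      split_ifs with h
      · subst h
        rw [pderiv_X_self, map_one]
        ring
      · rw [pderiv_X_of_ne (Ne.symm h), map_zero]
        ring
    simp only [h2, Finset.sum_add_distrib, h1, Finset.sum_ite_eq', Finset.mem_univ, if_true]
    rw [add_mul, Finset.sum_mul]
    ring

/-- derivations over `L` of the target -/
theorem der_rs (E : Derivation L (MvPolynomial σ L) (MvPolynomial σ L))
    (F : MvPolynomial (Fin (n + 1)) L) :
    E (rs ψ P F) = ∑ p, rs ψ P (pderiv p F) * ∑ i, C (P i p) * E (ψ i) := by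
  classical
  induction F using MvPolynomial.induction_on with
  | C a =>
    rw [rs_C]
    have h : E (C a) = 0 := by
      rw [← mul_one (C a), ← smul_eq_C_mul, E.map_smul, E.map_one_eq_zero, smul_zero]
    rw [h]
    simp
  | add F G hF hG =>
    rw [map_add, map_add, hF, hG]
    simp only [map_add, add_mul, Finset.sum_add_distrib]
  | mul_X F j hF =>
    rw [map_mul, Derivation.leibniz, hF]
    have h1 : E (rs ψ P (X j)) = ∑ i, C (P i j) * E (ψ i) := by
      rw [rs_X, map_sum]
      refine Finset.sum_congr rfl fun i _ => ?_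
      rw [← smul_eq_C_mul, E.map_smul, smul_eq_C_mul]
    have h2 : ∀ p, rs ψ P (pderiv p (F * X j)) * ∑ i, C (P i p) * E (ψ i) =
        rs ψ P (pderiv p F) * (∑ i, C (P i p) * E (ψ i)) * rs ψ P (X j) +
          if p = j then rs ψ P F * ∑ i, C (P i p) * E (ψ i) else 0 := by
      intro p
      rw [Derivation.leibniz]
      simp only [smul_eq_mul]
      rw [map_add, map_mul, map_mul]
      split_ifs with h
      · subst h
        rw [pderiv_X_self, map_one]
        ring
      · rw [pderiv_X_of_ne (Ne.symm h), map_zero]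
        ring
    simp only [h2, Finset.sum_add_distrib, h1, Finset.sum_ite_eq', Finset.mem_univ, if_true,
      smul_eq_mul]
    rw [← Finset.sum_mul]
    ring

/-- Euler -/
theorem euler_rs {F : MvPolynomial (Fin (n + 1)) L} {e : ℕ} (hF : F.IsHomogeneous e) :
    ∑ p, rs ψ P (pderiv p F) * rs ψ P (X p) = (e : MvPolynomial σ L) * rs ψ P F := by
  have h := hF.sum_X_mul_pderiv
  have h1 := congrArg (rs ψ P) h
  rw [map_sum, nsmul_eq_mul, map_mul, map_natCast] at h1
  rw [← h1]
  exact Finset.sum_congr rfl fun p _ => by rw [map_mul]; ring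

/-- a derivation which maps the span of the `ψ i` to itself up to the factor `w` -/
theorem sym_der (E : Derivation L (MvPolynomial σ L) (MvPolynomial σ L)) (w : MvPolynomial σ L)
    (cc : Fin q → Fin q → L) (hE : ∀ i, E (ψ i) = w * ψ i + ∑ j, C (cc i j) * ψ j)
    {F : MvPolynomial (Fin (n + 1)) L} {e : ℕ} (hF : F.IsHomogeneous e) :
    ∑ p, rs ψ P (pderiv p F) * ∑ j, C (∑ i, cc i j * P i p) * ψ j =
      E (rs ψ P F) - (e : MvPolynomial σ L) * w * rs ψ P F := by
  rw [der_rs]
  have h1 : ∀ p, ∑ i, C (P i p) * E (ψ i) = w * rs ψ P (X p) +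
      ∑ j, C (∑ i, cc i j * P i p) * ψ j := by
    intro p
    simp only [hE, mul_add, Finset.sum_add_distrib]
    refine congrArg₂ _ ?_ ?_
    · rw [rs_X, Finset.mul_sum]
      exact Finset.sum_congr rfl fun i _ => by ring
    · simp only [Finset.mul_sum]
      rw [Finset.sum_comm]
      refine Finset.sum_congr rfl fun j _ => ?_
      rw [map_sum, Finset.sum_mul]
      exact Finset.sum_congr rfl fun i _ => by rw [C_mul]; ring
  have h2 := euler_rs ψ P hF
  simp only [h1, mul_add, Finset.sum_add_distrib]
  have h3 : ∑ p, rs ψ P (pderiv p F) * (w * rs ψ P (X p)) =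
      w * ∑ p, rs ψ P (pderiv p F) * rs ψ P (X p) := by
    rw [Finset.mul_sum]
    exact Finset.sum_congr rfl fun p _ => by ring
  rw [h3, h2]
  ring

end sub

/-! ### the count -/

section count

variable {L : Type} [Field L] {n c : ℕ} {d : Fin c → ℕ} (D : DSys L n c d) {q : ℕ} {σ : Type}
  (ψ : Fin q → MvPolynomial σ L) (P : Fin q → Fin (n + 1) → L)

/-- the map of the count -/
noncomputable def Psi (h : MvPolynomial σ L) (g : Fin c → MvPolynomial σ L)
    (H : Submodule L (MvPolynomial σ L)) (G : Fin c → Submodule L (MvPolynomial σ L)) :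
    (H × (∀ m, G m)) × (Fin q → Fin (n + 1) → L) →ₗ[L] (Fin c → MvPolynomial σ L) where
  toFun z m := (z.1.1 : MvPolynomial σ L) * g m + h * (z.1.2 m : MvPolynomial σ L) +
    ∑ p, rs ψ P (pderiv p (D.F m)) * ∑ i, C (z.2 i p) * ψ i
  map_add' z z' := by
    funext m
    simp only [Prod.fst_add, Prod.snd_add, Submodule.coe_add, Pi.add_apply, C_add, add_mul,
      Finset.sum_add_distrib, mul_add]
    ring
  map_smul' a z := by
    funext m
    simp only [Prod.smul_fst, Prod.smul_snd, Submodule.coe_smul, Pi.smul_apply, RingHom.id_apply,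
      smul_eq_C_mul, smul_eq_mul, C_mul]
    rw [mul_add, mul_add, Finset.mul_sum]
    refine congrArg₂ _ (by ring) (Finset.sum_congr rfl fun p _ => ?_)
    rw [mul_left_comm]
    refine congrArg _ ?_
    rw [Finset.mul_sum]
    exact Finset.sum_congr rfl fun i _ => by ring

theorem Psi_apply (h : MvPolynomial σ L) (g : Fin c → MvPolynomial σ L)
    (H : Submodule L (MvPolynomial σ L)) (G : Fin c → Submodule L (MvPolynomial σ L))
    (z : (H × (∀ m, G m)) × (Fin q → Fin (n + 1) → L)) (m : Fin c) :
    Psi D ψ P h g H G z m = (z.1.1 : MvPolynomial σ L) * g m +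
      h * (z.1.2 m : MvPolynomial σ L) +
        ∑ p, rs ψ P (pderiv p (D.F m)) * ∑ i, C (z.2 i p) * ψ i := rfl

/-- **The dimension count**: the substitutions of the `F_m` have a common factor `h`. `H`: the
space of the factors, `G m`: the space of the cofactors, `T m`: the space of all substitutions,
`cc`: the matrices of the symmetries of the `ψ i` -/
theorem count_gen (hψ : ∀ (δ : Derivation ℤ L L) i, dco δ (ψ i) = 0)
    (hP : LinearIndependent L P)
    (H : Submodule L (MvPolynomial σ L)) (G T : Fin c → Submodule L (MvPolynomial σ L))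
    (fH : Module.Finite L H) (fG : ∀ m, Module.Finite L (G m)) (fT : ∀ m, Module.Finite L (T m))
    (hH : ∀ (δ : Derivation ℤ L L), ∀ f ∈ H, dco δ f ∈ H)
    (hG : ∀ (δ : Derivation ℤ L L) m, ∀ f ∈ G m, dco δ f ∈ G m)
    (hT : ∀ m, ∀ f ∈ T m, ∃ A : MvPolynomial (Fin (n + 1)) L, A.IsHomogeneous (d m) ∧
      rs ψ P A = f)
    (h : MvPolynomial σ L) (hh : h ∈ H) (h0 : h ≠ 0) (g : Fin c → MvPolynomial σ L)
    (hg : ∀ m, g m ∈ G m) (hF : ∀ m, rs ψ P (D.F m) = h * g m)
    {s : ℕ} (cc : Fin s → Fin q → Fin q → L) (hcc : LinearIndependent L cc)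
    (hsym : ∀ k, ∃ h' ∈ H, ∃ g' : Fin c → MvPolynomial σ L, (∀ m, g' m ∈ G m) ∧
      ∀ m, ∑ p, rs ψ P (pderiv p (D.F m)) * ∑ j, C (∑ i, cc k i j * P i p) * ψ j =
        h' * g m + h * g' m) :
    ∑ m, Module.finrank L (T m) + (s + 1) ≤
      Module.finrank L H + ∑ m, Module.finrank L (G m) + q * (n + 1) := by
  classical
  have hrn := LinearMap.finrank_range_add_finrank_ker (Psi D ψ P h g H G)
  rw [Module.finrank_prod, Module.finrank_prod, Module.finrank_pi_fintype] at hrn
  have h3 : Module.finrank L (Fin q → Fin (n + 1) → L) = q * (n + 1) := by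
    rw [Module.finrank_pi_fintype]
    simp
  rw [h3] at hrn
  choose h' hh' g' hg' hs' using hsym
  -- the kernel
  have hker : s + 1 ≤ Module.finrank L (LinearMap.ker (Psi D ψ P h g H G)) := by
    let v : Option (Fin s) → (H × (∀ m, G m)) × (Fin q → Fin (n + 1) → L) :=
      fun o => match o with
      | none => ((⟨h, hh⟩, fun m => ⟨- g m, (G m).neg_mem (hg m)⟩), 0)
      | some k => ((⟨- h' k, H.neg_mem (hh' k)⟩, fun m => ⟨- g' k m, (G m).neg_mem (hg' k m)⟩),
          fun j p => ∑ i, cc k i j * P i p)
    have hvk : ∀ o, v o ∈ LinearMap.ker (Psi D ψ P h g H G) := by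
      intro o
      rw [LinearMap.mem_ker]
      funext m
      rw [Psi_apply]
      rcases o with _ | k
      · simp only [v, Pi.zero_apply, C_0, zero_mul, Finset.sum_const_zero, mul_zero, add_zero]
        ring
      · simp only [v]
        rw [hs' k m, Pi.zero_apply]
        ring
    have hvi : LinearIndependent L v := by
      rw [Fintype.linearIndependent_iff]
      intro a ha
      rw [Fintype.sum_option] at ha
      have h1 : ∀ k, a (some k) = 0 := by
        have h2 := congrArg Prod.snd ha
        rw [Prod.snd_add, Prod.smul_snd, Prod.snd_sum] at h2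
        simp only [v, smul_zero, zero_add, Prod.smul_snd, Prod.snd_zero] at h2
        refine Fintype.linearIndependent_iff.1 hcc (fun k => a (some k)) ?_
        funext i0 j
        have h4 := congrFun h2 j
        rw [Finset.sum_apply] at h4
        have h5 : ∑ i, (∑ k, a (some k) * cc k i j) • P i = 0 := by
          funext p
          have h6 := congrFun h4 p
          rw [Finset.sum_apply] at h6
          simp only [Pi.smul_apply, Pi.zero_apply, smul_eq_mul] at h6
          rw [Finset.sum_apply, Pi.zero_apply, ← h6]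
          simp only [Pi.smul_apply, smul_eq_mul, Finset.sum_mul, Finset.mul_sum]
          rw [Finset.sum_comm]
          exact Finset.sum_congr rfl fun k _ => Finset.sum_congr rfl fun i _ => by ring
        have h7 := Fintype.linearIndependent_iff.1 hP _ h5 i0
        rw [Finset.sum_apply, Finset.sum_apply]
        simpa using h7
      have h2 : a none = 0 := by
        simp only [h1, zero_smul, Finset.sum_const_zero, add_zero] at ha
        have h3 := congrArg (fun z => (z.1.1 : MvPolynomial σ L)) ha
        have h4 : a none • h = 0 := h3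
        exact (smul_eq_zero.1 h4).resolve_right h0
      rintro (_ | k)
      · exact h2
      · exact h1 k
    have h5 : Submodule.span L (Set.range v) ≤ LinearMap.ker (Psi D ψ P h g H G) :=
      Submodule.span_le.2 (by rintro _ ⟨o, rfl⟩; exact hvk o)
    have h6 := Submodule.finrank_mono h5
    rw [finrank_span_eq_card hvi] at h6
    simpa using h6
  -- the range
  have hran : ∑ m, Module.finrank L (T m) ≤
      Module.finrank L (LinearMap.range (Psi D ψ P h g H G)) := by
    let ι : (∀ m, T m) →ₗ[L] (Fin c → MvPolynomial σ L) :=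
      LinearMap.pi fun m => (T m).subtype ∘ₗ LinearMap.proj m
    have hι : Function.Injective ι := by
      intro z z' h
      funext m
      exact Subtype.ext (congrFun h m)
    have h1 : Module.finrank L (LinearMap.range ι) = ∑ m, Module.finrank L (T m) := by
      rw [LinearMap.finrank_range_of_inj hι, Module.finrank_pi_fintype]
    rw [← h1]
    refine Submodule.finrank_mono ?_
    -- single monomials
    have h2 : ∀ (m : Fin c) (I : Fin (n + 1) →₀ ℕ), I.degree = d m →
        (Pi.single m (rs ψ P (monomial I 1)) : Fin c → MvPolynomial σ L) ∈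
          LinearMap.range (Psi D ψ P h g H G) := by
      intro m I hI
      refine ⟨((⟨dco (D.del m I) h, hH _ _ hh⟩,
        fun m' => ⟨dco (D.del m I) (g m'), hG _ m' _ (hg m')⟩),
          fun i p => - D.del m I (P i p)), ?_⟩
      funext m'
      rw [Psi_apply]
      simp only
      have h3 := dco_rs ψ P (D.del m I) (hψ _) (D.F m')
      rw [hF m', dco_mul, dco_F D m m' I hI] at h3
      have h4 : ∑ p, rs ψ P (pderiv p (D.F m')) * ∑ i, C (- D.del m I (P i p)) * ψ i =
          - ∑ p, rs ψ P (pderiv p (D.F m')) * ∑ i, C (D.del m I (P i p)) * ψ i := by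
        rw [← Finset.sum_neg_distrib]
        refine Finset.sum_congr rfl fun p _ => ?_
        rw [← mul_neg, ← Finset.sum_neg_distrib]
        refine congrArg _ (Finset.sum_congr rfl fun i _ => ?_)
        rw [C_neg, neg_mul]
      rw [h4, h3]
      by_cases hm : m = m'
      · subst hm
        rw [if_pos rfl, Pi.single_eq_same]
        ring
      · rw [if_neg hm, Pi.single_eq_of_ne (Ne.symm hm), map_zero]
        ring
    have h3 : ∀ (m : Fin c) (A : MvPolynomial (Fin (n + 1)) L), A.IsHomogeneous (d m) →
        (Pi.single m (rs ψ P A) : Fin c → MvPolynomial σ L) ∈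
          LinearMap.range (Psi D ψ P h g H G) := by
      intro m A hA
      have h4 : (Pi.single m (rs ψ P A) : Fin c → MvPolynomial σ L) =
          ∑ I ∈ A.support, coeff I A • Pi.single m (rs ψ P (monomial I 1)) := by
        conv_lhs => rw [A.as_sum]
        rw [map_sum]
        have h5 := map_sum (LinearMap.single L (fun _ : Fin c => MvPolynomial σ L) m)
          (fun I => rs ψ P (monomial I (coeff I A))) A.support
        simp only [LinearMap.coe_single] at h5
        rw [h5]
        refine Finset.sum_congr rfl fun I _ => ?_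
        rw [← Pi.single_smul, ← map_smul, smul_monomial, smul_eq_mul, mul_one]
      rw [h4]
      refine Submodule.sum_mem _ fun I hI => Submodule.smul_mem _ _ (h2 m I ?_)
      have h6 := hA (mem_support_iff.1 hI)
      rw [Finsupp.degree_eq_weight_one]
      exact h6
    rintro _ ⟨z, rfl⟩
    have h4 : ι z = ∑ m, (Pi.single m (z m : MvPolynomial σ L) :
        Fin c → MvPolynomial σ L) := by
      rw [Finset.univ_sum_single]
      rfl
    rw [h4]
    refine Submodule.sum_mem _ fun m _ => ?_
    obtain ⟨A, hA, hA'⟩ := hT m _ (z m).2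
    rw [← hA']
    exact h3 m A hA
  omega

end count

/-! ### restricted supports -/

section supp

variable {L : Type} [Field L] {σ : Type}

theorem rsup_mem {S : Set (σ →₀ ℕ)} {f : MvPolynomial σ L} :
    f ∈ restrictSupport L S ↔ ∀ I, coeff I f ≠ 0 → I ∈ S := by
  rw [mem_restrictSupport_iff]
  constructor
  · intro h I hI
    exact h (mem_support_iff.2 hI)
  · intro h I hI
    exact h I (mem_support_iff.1 hI)

/-- induction over the monomials -/
theorem rsup_ind {S : Set (σ →₀ ℕ)} (Q : Submodule L (MvPolynomial σ L))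
    (h : ∀ I ∈ S, (monomial I 1 : MvPolynomial σ L) ∈ Q) {f : MvPolynomial σ L}
    (hf : f ∈ restrictSupport L S) : f ∈ Q := by
  rw [rsup_mem] at hf
  rw [f.as_sum]
  refine Submodule.sum_mem _ fun I hI => ?_
  have h1 : (monomial I (coeff I f) : MvPolynomial σ L) = coeff I f • monomial I 1 := by
    rw [smul_monomial, smul_eq_mul, mul_one]
  rw [h1]
  exact Q.smul_mem _ (h I (hf I (mem_support_iff.1 hI)))

theorem rsup_mon {S : Set (σ →₀ ℕ)} {I : σ →₀ ℕ} (hI : I ∈ S) (a : L) :
    monomial I a ∈ restrictSupport L S := by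
  classical
  rw [rsup_mem]
  intro J hJ
  rw [coeff_monomial] at hJ
  split_ifs at hJ with h
  · rw [← h]
    exact hI
  · exact absurd rfl hJ

/-- linear maps between the spaces -/
theorem rsup_map {S S' : Set (σ →₀ ℕ)} (φ : MvPolynomial σ L →ₗ[L] MvPolynomial σ L)
    (h : ∀ I ∈ S, φ (monomial I 1) ∈ restrictSupport L S') {f : MvPolynomial σ L}
    (hf : f ∈ restrictSupport L S) : φ f ∈ restrictSupport L S' :=
  rsup_ind ((restrictSupport L S').comap φ) h hf

theorem dco_rsup (δ : Derivation ℤ L L) {S : Set (σ →₀ ℕ)} {f : MvPolynomial σ L}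
    (hf : f ∈ restrictSupport L S) : dco δ f ∈ restrictSupport L S := by
  rw [rsup_mem] at hf ⊢
  intro I hI
  rw [coeff_dco] at hI
  refine hf I fun h => hI ?_
  rw [h, map_zero]

end supp

section surj

variable {L : Type} [Field L] {n q : ℕ} {σ : Type} (ψ : Fin q → MvPolynomial σ L)
  (P : Fin q → Fin (n + 1) → L)

/-- the `ψ i` are substitutions of linear forms -/
theorem exists_lin (hP : LinearIndependent L P) (i : Fin q) :
    ∃ A : MvPolynomial (Fin (n + 1)) L, A.IsHomogeneous 1 ∧ rs ψ P A = ψ i := by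
  classical
  obtain ⟨g, hg⟩ := LinearMap.exists_leftInverse_of_injective
    (Fintype.linearCombination L P)
    (LinearMap.ker_eq_bot.2 (linearIndependent_iff_injective_fintypeLinearCombination.1 hP))
  have hQ : ∀ i', ∑ j, g (Pi.single j 1) i * P i' j = if i = i' then 1 else 0 := by
    intro i'
    have h1 : g (P i') = Pi.single i' 1 := by
      have h2 := LinearMap.congr_fun hg (Pi.single i' 1)
      rw [LinearMap.comp_apply, LinearMap.id_apply, Fintype.linearCombination_apply_single,
        one_smul] at h2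
      exact h2
    have h3 : P i' = ∑ j, P i' j • (Pi.single j 1 : Fin (n + 1) → L) := by
      rw [← pi_eq_sum_univ' (P i')]
    have h4 : g (P i') i = ∑ j, g (Pi.single j 1) i * P i' j := by
      conv_lhs => rw [h3]
      rw [map_sum, Finset.sum_apply]
      refine Finset.sum_congr rfl fun j _ => ?_
      rw [map_smul, Pi.smul_apply, smul_eq_mul, mul_comm]
    rw [← h4, h1, Pi.single_apply]
  refine ⟨∑ j, C (g (Pi.single j 1) i) * X j, ?_, ?_⟩
  · refine IsHomogeneous.sum _ _ _ fun j _ => ?_
    simpa using (isHomogeneous_C _ (g (Pi.single j 1) i)).mul (isHomogeneous_X L j)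
  · rw [map_sum]
    simp only [map_mul, rs_C, rs_X, Finset.mul_sum]
    rw [Finset.sum_comm]
    have h5 : ∀ i', ∑ j, C (g (Pi.single j 1) i) * (C (P i' j) * ψ i') =
        if i = i' then ψ i' else 0 := by
      intro i'
      have : ∑ j, C (g (Pi.single j 1) i) * (C (P i' j) * ψ i') =
          C (∑ j, g (Pi.single j 1) i * P i' j) * ψ i' := by
        rw [map_sum, Finset.sum_mul]
        refine Finset.sum_congr rfl fun j _ => ?_
        rw [C_mul]
        ring
      rw [this, hQ i']
      split_ifs <;> simp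
    simp only [h5, Finset.sum_ite_eq, Finset.mem_univ, if_true]

/-- substitutions of forms of degree `e` -/
noncomputable def Img (e : ℕ) : Submodule L (MvPolynomial σ L) :=
  (homogeneousSubmodule (Fin (n + 1)) L e).map (rs ψ P).toLinearMap

theorem mem_Img {e : ℕ} {f : MvPolynomial σ L} : f ∈ Img ψ P e ↔
    ∃ A : MvPolynomial (Fin (n + 1)) L, A.IsHomogeneous e ∧ rs ψ P A = f := by
  unfold Img
  rw [Submodule.mem_map]
  rfl

theorem Img_mul {e e' : ℕ} {f f' : MvPolynomial σ L} (h : f ∈ Img ψ P e)
    (h' : f' ∈ Img ψ P e') : f * f' ∈ Img ψ P (e + e') := by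
  rw [mem_Img] at h h' ⊢
  obtain ⟨A, hA, rfl⟩ := h
  obtain ⟨A', hA', rfl⟩ := h'
  exact ⟨A * A', hA.mul hA', map_mul _ _ _⟩

theorem Img_pow {e : ℕ} {f : MvPolynomial σ L} (h : f ∈ Img ψ P e) (k : ℕ) :
    f ^ k ∈ Img ψ P (e * k) := by
  rw [mem_Img] at h ⊢
  obtain ⟨A, hA, rfl⟩ := h
  exact ⟨A ^ k, hA.pow k, map_pow _ _ _⟩

theorem Img_psi (hP : LinearIndependent L P) (i : Fin q) : ψ i ∈ Img ψ P 1 :=
  (mem_Img ψ P).2 (exists_lin ψ P hP i)

/-- products of powers of four of the `ψ i` -/
theorem Img_prod (hP : LinearIndependent L P) (k : Fin q → ℕ) {e : ℕ} (he : ∑ i, k i = e) :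
    ∏ i, ψ i ^ k i ∈ Img ψ P e := by
  classical
  have h1 : ∀ s : Finset (Fin q), ∏ i ∈ s, ψ i ^ k i ∈ Img ψ P (∑ i ∈ s, k i) := by
    intro s
    induction s using Finset.induction_on with
    | empty =>
      rw [Finset.prod_empty, Finset.sum_empty, mem_Img]
      exact ⟨1, isHomogeneous_one _ _, map_one _⟩
    | insert a s ha ih =>
      rw [Finset.prod_insert ha, Finset.sum_insert ha]
      refine Img_mul ψ P ?_ ih
      have h2 := Img_pow ψ P (Img_psi ψ P hP a) (k a)
      rwa [one_mul] at h2
  rw [← he]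
  exact h1 Finset.univ

/-- the surjectivity in `count_gen` -/
theorem surj_of_mon {S : Set (σ →₀ ℕ)} {e : ℕ}
    (h : ∀ I ∈ S, (monomial I 1 : MvPolynomial σ L) ∈ Img ψ P e) :
    ∀ f ∈ restrictSupport L S, ∃ A : MvPolynomial (Fin (n + 1)) L, A.IsHomogeneous e ∧
      rs ψ P A = f := fun f hf =>
  (mem_Img ψ P).1 (rsup_ind _ h hf)

end surj

end Pool.Agent.T2C.H78
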