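import Pool.Agent.Lib.MP_c7af3c_ag.T2C.NO3.Iface
import Pool.Agent.Lib.MP_c7af3c_ag.T2C.H78.Cnt

/-!
# MP_c7af3c_ag, project T2C, row N3S: the count on the quadric of rank 4 (helper78)
-/

set_option autoImplicit false

namespace Pool.Agent.T2C.H78

open MvPolynomial Pool.Agent.Gen Pool.Agent.Sharp.H75
open Pool.Agent.T2C.NO3 (bid psiS rho)

section bid

variable {L : Type} [Field L]

theorem bid_def (a b : ℕ) : bid L a b = restrictSupport L {I : Fin 2 →₀ ℕ | I 0 ≤ a ∧ I 1 ≤ b} :=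
  rfl

theorem card_bid (a b : ℕ) :
    Nat.card {I : Fin 2 →₀ ℕ | I 0 ≤ a ∧ I 1 ≤ b} = (a + 1) * (b + 1) := by
  have e : {I : Fin 2 →₀ ℕ | I 0 ≤ a ∧ I 1 ≤ b} ≃ Fin (a + 1) × Fin (b + 1) :=
    { toFun := fun I => (⟨I.1 0, Nat.lt_succ_of_le I.2.1⟩, ⟨I.1 1, Nat.lt_succ_of_le I.2.2⟩)
      invFun := fun z => ⟨Finsupp.equivFunOnFinite.symm ![(z.1 : ℕ), (z.2 : ℕ)], by
        constructor
        · simpa using Nat.le_of_lt_succ z.1.2
        · simpa using Nat.le_of_lt_succ z.2.2⟩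
      left_inv := fun I => by
        apply Subtype.ext
        ext i
        fin_cases i <;> simp
      right_inv := fun z => by
        ext <;> simp }
  rw [Nat.card_congr e]
  simp

theorem finite_bid (a b : ℕ) : Module.Finite L (bid L a b) := by
  have : Finite {I : Fin 2 →₀ ℕ | I 0 ≤ a ∧ I 1 ≤ b} :=
    Nat.finite_of_card_ne_zero (by rw [card_bid]; positivity)
  exact Module.Finite.of_basis (basisRestrictSupport L {I : Fin 2 →₀ ℕ | I 0 ≤ a ∧ I 1 ≤ b})

theorem finrank_bid (a b : ℕ) : Module.finrank L (bid L a b) = (a + 1) * (b + 1) := by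
  rw [bid_def, Module.finrank_eq_nat_card_basis
    (basisRestrictSupport L {I : Fin 2 →₀ ℕ | I 0 ≤ a ∧ I 1 ≤ b}), card_bid]

theorem bid_mem {a b : ℕ} {f : MvPolynomial (Fin 2) L} :
    f ∈ bid L a b ↔ ∀ I, coeff I f ≠ 0 → I 0 ≤ a ∧ I 1 ≤ b := rsup_mem

/-- `∂_i` -/
theorem bid_d (i : Fin 2) {a b : ℕ} {f : MvPolynomial (Fin 2) L} (hf : f ∈ bid L a b) :
    pderiv i f ∈ bid L a b := by
  refine rsup_map (pderiv i).toLinearMap (fun I hI => ?_) hf
  have h1 : (pderiv i).toLinearMap (monomial I (1 : L)) = monomial (I - Finsupp.single i 1)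
      (1 * (I i : L)) := pderiv_monomial
  rw [h1]
  refine rsup_mon ?_ _
  simp only [Set.mem_ofPred_eq, Finsupp.tsub_apply] at hI ⊢
  exact ⟨(Nat.sub_le _ _).trans hI.1, (Nat.sub_le _ _).trans hI.2⟩

/-- the coefficients of `X_i ∂_i` -/
theorem xd_monomial (i : Fin 2) (I : Fin 2 →₀ ℕ) (r : L) :
    X i * pderiv i (monomial I r) = monomial I ((I i : L) * r) := by
  rw [X_mul_pderiv_monomial, ← Nat.cast_smul_eq_nsmul L, smul_monomial, smul_eq_mul]

/-- `X_i ∂_i` -/
theorem bid_xd (i : Fin 2) {a b : ℕ} {f : MvPolynomial (Fin 2) L} (hf : f ∈ bid L a b) :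
    X i * pderiv i f ∈ bid L a b := by
  have h : ∀ g : MvPolynomial (Fin 2) L, (LinearMap.mulLeft L (X i) ∘ₗ
    (pderiv i).toLinearMap) g = X i * pderiv i g := fun g => rfl
  rw [← h]
  refine rsup_map _ (fun I hI => ?_) hf
  rw [h, xd_monomial]
  exact rsup_mon hI _

theorem bid_xxd (i : Fin 2) {a b : ℕ} {f : MvPolynomial (Fin 2) L} (hf : f ∈ bid L a b) :
    X i * (X i * pderiv i f) - C (((![a, b] i : ℕ) : L)) * X i * f ∈ bid L a b := by
  let φ : MvPolynomial (Fin 2) L →ₗ[L] MvPolynomial (Fin 2) L :=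
    LinearMap.mulLeft L (X i) ∘ₗ (LinearMap.mulLeft L (X i) ∘ₗ (pderiv i).toLinearMap) -
      LinearMap.mulLeft L (C (((![a, b] i : ℕ) : L)) * X i)
  have h : ∀ g : MvPolynomial (Fin 2) L, φ g =
      X i * (X i * pderiv i g) - C (((![a, b] i : ℕ) : L)) * X i * g := fun g => rfl
  rw [← h]
  refine rsup_map _ (fun I hI => ?_) hf
  rw [h, xd_monomial]
  have h1 : X i * monomial I ((I i : L) * 1) - C (((![a, b] i : ℕ) : L)) * X i * monomial I 1 =
      monomial (I + Finsupp.single i 1) ((I i : L) - ((![a, b] i : ℕ) : L)) := by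
    have h2 : ∀ r : L, X i * monomial I r = monomial (I + Finsupp.single i 1) r := by
      intro r
      rw [X, monomial_mul, one_mul, add_comm]
    rw [mul_assoc, h2, h2, C_mul_monomial, ← map_sub]
    simp
  rw [h1]
  simp only [Set.mem_ofPred_eq] at hI
  by_cases h2 : I i = ![a, b] i
  · rw [h2, sub_self, monomial_zero]
    exact Submodule.zero_mem _
  · refine rsup_mon ?_ _
    simp only [Set.mem_ofPred_eq, Finsupp.add_apply]
    fin_cases i
    · simp at h2 ⊢
      omega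
    · simp at h2 ⊢
      omega

end bid

section count

variable {L : Type} [Field L]

/-- the matrices of the symmetries -/
def cS (L : Type) [Field L] : Fin 7 → Fin 4 → Fin 4 → L :=
  ![![![1, 0, 0, 0], ![0, 1, 0, 0], ![0, 0, 1, 0], ![0, 0, 0, 1]],
    ![![0, 0, 0, 0], ![0, 0, 0, 0], ![1, 0, 0, 0], ![0, 1, 0, 0]],
    ![![0, 0, 0, 0], ![0, 0, 0, 0], ![0, 0, 1, 0], ![0, 0, 0, 1]],
    ![![0, 0, -1, 0], ![0, 0, 0, -1], ![0, 0, 0, 0], ![0, 0, 0, 0]],
    ![![0, 0, 0, 0], ![1, 0, 0, 0], ![0, 0, 0, 0], ![0, 0, 1, 0]],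
    ![![0, 0, 0, 0], ![0, 1, 0, 0], ![0, 0, 0, 0], ![0, 0, 0, 1]],
    ![![0, -1, 0, 0], ![0, 0, 0, 0], ![0, 0, 0, -1], ![0, 0, 0, 0]]]

theorem cS_ind : LinearIndependent L (cS L) := by
  rw [Fintype.linearIndependent_iff]
  intro a ha
  have h : ∀ i j, ∑ k, a k * cS L k i j = 0 := by
    intro i j
    have h1 := congrFun (congrFun ha i) j
    rw [Finset.sum_apply, Finset.sum_apply] at h1
    exact h1
  have h00 := h 0 0
  have h10 := h 1 0
  have h20 := h 2 0
  have h02 := h 0 2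
  have h01 := h 0 1
  have h11 := h 1 1
  have h22 := h 2 2
  simp [Fin.sum_univ_succ, cS] at h00 h10 h20 h02 h01 h11 h22
  intro i
  fin_cases i
  · exact h00
  · exact h20
  · simpa [h00] using h22
  · exact h02
  · exact h10
  · simpa [h00] using h11
  · exact h01

theorem dco_psiS (δ : Derivation ℤ L L) (i : Fin 4) : dco δ (psiS L i) = 0 := by
  have h1 : dco δ (1 : MvPolynomial (Fin 2) L) = 0 := by
    rw [← C_1, dco_C, δ.map_one_eq_zero, C_0]
  fin_cases i
  · exact h1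
  · exact dco_X δ 1
  · exact dco_X δ 0
  · show dco δ (X 0 * X 1) = 0
    rw [dco_mul, dco_X, dco_X]
    simp

/-- surjectivity -/
theorem surj_S {n : ℕ} (P : Fin 4 → Fin (n + 1) → L) (hP : LinearIndependent L P) (e : ℕ) :
    ∀ f ∈ bid L e e, ∃ A : MvPolynomial (Fin (n + 1)) L, A.IsHomogeneous e ∧
      rs (psiS L) P A = f := by
  refine surj_of_mon (psiS L) P fun I hI => ?_
  simp only [Set.mem_ofPred_eq] at hI
  have h1 : (monomial I 1 : MvPolynomial (Fin 2) L) = X 0 ^ I 0 * X 1 ^ I 1 := by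
    rw [monomial_eq, C_1, one_mul, Finsupp.prod_fintype _ _ (fun i => pow_zero _)]
    exact Fin.prod_univ_two _
  rw [h1]
  rcases le_total (I 0) (I 1) with h | h
  · have h2 := Img_prod (psiS L) P hP (![e - I 1, I 1 - I 0, 0, I 0]) (e := e) (by
      simp [Fin.sum_univ_succ]; omega)
    have h3 : ∏ i, psiS L i ^ (![e - I 1, I 1 - I 0, 0, I 0] : Fin 4 → ℕ) i =
        X 0 ^ I 0 * X 1 ^ I 1 := by
      simp only [Fin.prod_univ_four, psiS]
      simp
      rw [mul_pow]
      have h4 : (X 1 : MvPolynomial (Fin 2) L) ^ I 1 = X 1 ^ (I 1 - I 0) * X 1 ^ I 0 := by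
        rw [← pow_add, Nat.sub_add_cancel h]
      rw [h4]
      ring
    rw [← h3]
    exact h2
  · have h2 := Img_prod (psiS L) P hP (![e - I 0, 0, I 0 - I 1, I 1]) (e := e) (by
      simp [Fin.sum_univ_succ]; omega)
    have h3 : ∏ i, psiS L i ^ (![e - I 0, 0, I 0 - I 1, I 1] : Fin 4 → ℕ) i =
        X 0 ^ I 0 * X 1 ^ I 1 := by
      simp only [Fin.prod_univ_four, psiS]
      simp
      rw [mul_pow]
      have h4 : (X 0 : MvPolynomial (Fin 2) L) ^ I 0 = X 0 ^ (I 0 - I 1) * X 0 ^ I 1 := by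
        rw [← pow_add, Nat.sub_add_cancel h]
      rw [h4]
      ring
    rw [← h3]
    exact h2

/-- the factor part of a symmetry -/
theorem sym_hg {n : ℕ} (P : Fin 4 → Fin (n + 1) → L)
    (E : Derivation L (MvPolynomial (Fin 2) L) (MvPolynomial (Fin 2) L))
    (w : MvPolynomial (Fin 2) L) (cc : Fin 4 → Fin 4 → L)
    (hE : ∀ i, E (psiS L i) = w * psiS L i + ∑ j, C (cc i j) * psiS L j)
    {F : MvPolynomial (Fin (n + 1)) L} {e : ℕ} (hF : F.IsHomogeneous e)
    {h g : MvPolynomial (Fin 2) L} (hg : rs (psiS L) P F = h * g) (a a' : L) (ha : a + a' = e) :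
    ∑ p, rs (psiS L) P (pderiv p F) * ∑ j, C (∑ i, cc i j * P i p) * psiS L j =
      (E h - C a * w * h) * g + h * (E g - C a' * w * g) := by
  rw [sym_der (psiS L) P E w cc hE hF, hg, Derivation.leibniz]
  have h1 : (e : MvPolynomial (Fin 2) L) = C a + C a' := by
    rw [← C_add, ha]
    exact (map_natCast (C : L →+* MvPolynomial (Fin 2) L) e).symm
  rw [h1]
  simp only [smul_eq_mul]
  ring

/-- Row N3S -/
theorem n3s : Pool.Agent.T2C.NO3.N3SStatement := by
  intro L _ _ n c d D u hu m0 a b h g h00 hg0 hh h0 hF hg hgz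
  classical
  have hF' : ∀ m, rs (psiS L) u (D.F m) = h * g m := by
    intro m
    by_cases hm : m = m0
    · rw [hm, hg0, mul_zero]
      exact h00
    · exact hF m hm
  let G : Fin c → Submodule L (MvPolynomial (Fin 2) L) := fun m =>
    if m ≠ m0 ∧ a ≤ d m ∧ b ≤ d m then bid L (d m - a) (d m - b) else ⊥
  have hGt : ∀ m, m ≠ m0 ∧ a ≤ d m ∧ b ≤ d m → G m = bid L (d m - a) (d m - b) := fun m hm =>
    if_pos hm
  have hGf : ∀ m, ¬ (m ≠ m0 ∧ a ≤ d m ∧ b ≤ d m) → G m = ⊥ := fun m hm => if_neg hm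
  have hgG : ∀ m, g m ∈ G m := by
    intro m
    by_cases hm : m ≠ m0 ∧ a ≤ d m ∧ b ≤ d m
    · rw [hGt m hm]
      exact hg m
    · rw [hGf m hm, Submodule.mem_bot]
      by_cases h1 : m = m0
      · rw [h1, hg0]
      · exact hgz m fun h2 => hm ⟨h1, h2⟩
  have hGn : ∀ m, Module.finrank L (G m) =
      if m ≠ m0 ∧ a ≤ d m ∧ b ≤ d m then (d m - a + 1) * (d m - b + 1) else 0 := by
    intro m
    split_ifs with hm
    · rw [hGt m hm, finrank_bid]
    · rw [hGf m hm]
      exact finrank_bot L _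
  -- a symmetry
  have key : ∀ (i0 : Fin 2) (E : Derivation L (MvPolynomial (Fin 2) L) (MvPolynomial (Fin 2) L))
      (w : MvPolynomial (Fin 2) L) (cc : Fin 4 → Fin 4 → L),
      (∀ i, E (psiS L i) = w * psiS L i + ∑ j, C (cc i j) * psiS L j) →
      (∀ a b, ∀ f ∈ bid L a b, E f - C (((![a, b] i0 : ℕ)) : L) * w * f ∈ bid L a b) →
      ∃ h' ∈ bid L a b, ∃ g' : Fin c → MvPolynomial (Fin 2) L, (∀ m, g' m ∈ G m) ∧
      ∀ m, ∑ p, rs (psiS L) u (pderiv p (D.F m)) * ∑ j, C (∑ i, cc i j * u i p) * psiS L j =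
        h' * g m + h * g' m := by
    intro i0 E w cc hE hmem
    refine ⟨_, hmem a b h hh, fun m => if m ≠ m0 ∧ a ≤ d m ∧ b ≤ d m then
      E (g m) - C (((![d m - a, d m - b] i0 : ℕ)) : L) * w * g m else 0, fun m => ?_,
      fun m => ?_⟩
    · by_cases hm : m ≠ m0 ∧ a ≤ d m ∧ b ≤ d m
      · simp only [if_pos hm]
        rw [hGt m hm]
        exact hmem _ _ _ (hg m)
      · simp only [if_neg hm]
        exact Submodule.zero_mem _
    · by_cases hm : m ≠ m0 ∧ a ≤ d m ∧ b ≤ d m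
      · simp only [if_pos hm]
        refine sym_hg u E w cc hE (D.hom m) (hF' m) _ _ ?_
        rw [← Nat.cast_add]
        refine congrArg _ ?_
        fin_cases i0
        · simp
          omega
        · simp
          omega
      · simp only [if_neg hm]
        have h1 : g m = 0 := by
          have h2 := hgG m
          rw [hGf m hm, Submodule.mem_bot] at h2
          exact h2
        rw [sym_der (psiS L) u E w cc hE (D.hom m), hF' m, h1]
        simp
  have hsym : ∀ k, ∃ h' ∈ bid L a b, ∃ g' : Fin c → MvPolynomial (Fin 2) L,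
      (∀ m, g' m ∈ G m) ∧ ∀ m, ∑ p, rs (psiS L) u (pderiv p (D.F m)) *
        ∑ j, C (∑ i, cS L k i j * u i p) * psiS L j = h' * g m + h * g' m := by
    have X0 : pderiv (0 : Fin 2) (X 0 : MvPolynomial (Fin 2) L) = 1 := pderiv_X_self _
    have X1 : pderiv (1 : Fin 2) (X 1 : MvPolynomial (Fin 2) L) = 1 := pderiv_X_self _
    have X01 : pderiv (0 : Fin 2) (X 1 : MvPolynomial (Fin 2) L) = 0 :=
      pderiv_X_of_ne (by decide)
    have X10 : pderiv (1 : Fin 2) (X 0 : MvPolynomial (Fin 2) L) = 0 :=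
      pderiv_X_of_ne (by decide)
    intro k
    fin_cases k
    · refine key 0 0 (-1) _ (fun i => ?_) (fun a b f hf => ?_)
      · fin_cases i <;> simp [cS, psiS, Fin.sum_univ_succ]
      · have h1 : (0 : Derivation L (MvPolynomial (Fin 2) L) (MvPolynomial (Fin 2) L)) f -
            C (((![a, b] 0 : ℕ)) : L) * (-1) * f = ((a : ℕ) : L) • f := by
          simp [smul_eq_C_mul]
        rw [h1]
        exact Submodule.smul_mem _ _ hf
    · refine key 0 (pderiv 0) 0 _ (fun i => ?_) (fun a b f hf => ?_)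
      · fin_cases i <;> simp [cS, psiS, Fin.sum_univ_succ, X0, X01]
      · simpa using bid_d 0 hf
    · refine key 0 ((X 0 : MvPolynomial (Fin 2) L) • pderiv 0) 0 _ (fun i => ?_)
        (fun a b f hf => ?_)
      · fin_cases i <;> simp [cS, psiS, Fin.sum_univ_succ, X0, X01, mul_comm]
      · simpa using bid_xd 0 hf
    · refine key 0 ((X 0 : MvPolynomial (Fin 2) L) • (X 0 : MvPolynomial (Fin 2) L) • pderiv 0)
        (X 0) _ (fun i => ?_) (fun a b f hf => ?_)
      · fin_cases i <;> simp [cS, psiS, Fin.sum_univ_succ, X0, X01] <;> ring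
      · exact bid_xxd 0 hf
    · refine key 1 (pderiv 1) 0 _ (fun i => ?_) (fun a b f hf => ?_)
      · fin_cases i <;> simp [cS, psiS, Fin.sum_univ_succ, X1, X10]
      · simpa using bid_d 1 hf
    · refine key 1 ((X 1 : MvPolynomial (Fin 2) L) • pderiv 1) 0 _ (fun i => ?_)
        (fun a b f hf => ?_)
      · fin_cases i <;> simp [cS, psiS, Fin.sum_univ_succ, X1, X10, mul_comm]
      · simpa using bid_xd 1 hf
    · refine key 1 ((X 1 : MvPolynomial (Fin 2) L) • (X 1 : MvPolynomial (Fin 2) L) • pderiv 1)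
        (X 1) _ (fun i => ?_) (fun a b f hf => ?_)
      · fin_cases i <;> simp [cS, psiS, Fin.sum_univ_succ, X1, X10] <;> ring
      · exact bid_xxd 1 hf
  have hfin := count_gen D (psiS L) u (fun δ i => dco_psiS δ i) hu (bid L a b) G
    (fun m => bid L (d m) (d m)) (finite_bid a b) (fun m => by
      by_cases hm : m ≠ m0 ∧ a ≤ d m ∧ b ≤ d m
      · rw [hGt m hm]
        exact finite_bid _ _
      · rw [hGf m hm]
        infer_instance) (fun m => finite_bid _ _) (fun δ f hf => dco_rsup δ hf)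
    (fun δ m f hf => by
      by_cases hm : m ≠ m0 ∧ a ≤ d m ∧ b ≤ d m
      · rw [hGt m hm] at hf ⊢
        exact dco_rsup δ hf
      · rw [hGf m hm, Submodule.mem_bot] at hf ⊢
        rw [hf, dco_zero])
    (fun m => surj_S u hu (d m)) h hh h0 g hgG hF' (cS L) cS_ind hsym
  simp only [hGn, finrank_bid] at hfin
  have h1 : ∀ m, (d m + 1) * (d m + 1) = (d m + 1) ^ 2 := fun m => by ring
  simp only [h1] at hfin
  linarith

end count

end Pool.Agent.T2C.H78
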